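import Pool.Agent.helper74.FD.SpecG

/-!
# MP_07c750, project FD, row JPO: porosity of the stable set
-/

set_option autoImplicit false

open scoped MatrixGroups ContDiff Topology UpperHalfPlane ComplexConjugate
open UpperHalfPlane MeasureTheory Filter Set

namespace Pool.Agent.FD

open Pool.Agent.RS Pool.Agent.MS

/-- the matrix `nM (-x) * lM (-m) * nM x` -/
theorem JPO_mid (x m : ℝ) : (nM (-x) * lM (-m) * nM x).1 = !![1 + x * m, x ^ 2 * m; -m, 1 - x * m] := by
  unfold nM lM
  rw [Matrix.SpecialLinearGroup.coe_mul, Matrix.SpecialLinearGroup.coe_mul]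
  simp only [Matrix.mul_fin_two]
  ext i j
  fin_cases i <;> fin_cases j <;> simp <;> ring

/-- conjugation by `aM t` -/
theorem JPO_conj (t p q r s : ℝ) (M : SL(2, ℝ)) (hM : M.1 = !![p, q; r, s]) :
    (aM t * M * aM (-t)).1 = !![p, Real.exp t * q; Real.exp (-t) * r, s] := by
  rw [Matrix.SpecialLinearGroup.coe_mul, Matrix.SpecialLinearGroup.coe_mul, hM]
  unfold aM
  simp only [Matrix.mul_fin_two]
  have e1 : Real.exp (t / 2) * Real.exp (-t / 2) = 1 := by
    rw [← Real.exp_add]
    ring_nf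
    exact Real.exp_zero
  have e2 : Real.exp (t / 2) * Real.exp (-(-t / 2)) = Real.exp t := by
    rw [← Real.exp_add]
    ring_nf
  have e3 : Real.exp (-(t / 2)) * Real.exp (-t / 2) = Real.exp (-t) := by
    rw [← Real.exp_add]
    ring_nf
  have e4 : Real.exp (-(t / 2)) * Real.exp (-(-t / 2)) = 1 := by
    rw [← Real.exp_add]
    ring_nf
    exact Real.exp_zero
  ext i j
  fin_cases i <;> fin_cases j
  · simp
    linear_combination p * e1
  · simp
    linear_combination q * e2
  · simp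
    linear_combination r * e3
  · simp
    linear_combination s * e4

/-- the basic hole -/
theorem JPO_hole (hGLC : RS.GLC_stmt) (θ : SL(2, ℝ) → ℝ) (T0 c n' ε : ℝ) (g : SL(2, ℝ)) (J : Finset ℤ)
    (hDES : ∀ g : SL(2, ℝ), ∃ t v0 : ℝ, 0 ≤ t ∧ t ≤ T0 ∧ c ≤ v0 ∧ v0 ≤ 1 - c ∧
      ∀ v, |v - v0| ≤ c → 3 / 4 < θ (g * nM v * aM (-t)))
    (hA : ∀ j ∈ J, ∀ t : ℝ, 1 ≤ t → t ≤ n' - 1 → θ (g * nM (j * ε) * aM (-t)) ≤ 5 / 8)
    (a l : ℝ) (hl : 0 < l) (hd1 : Real.exp (1 + T0 - n') ≤ l * ε) (hd2 : l * ε ≤ Real.exp (-1)) :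
    ∃ v0 : ℝ, c ≤ v0 ∧ v0 ≤ 1 - c ∧ ∀ j ∈ J, ¬ |((j : ℝ) - a) / l - v0| ≤ c := by
  obtain ⟨-, -, -, -, -, -, -, -, -, -, haa, hnn, -, -, -, -, -, hna, -, -⟩ := hGLC
  have hd0 : 0 < l * ε := lt_of_lt_of_le (Real.exp_pos _) hd1
  obtain ⟨s, hs⟩ : ∃ s : ℝ, s = -Real.log (l * ε) := ⟨_, rfl⟩
  have hes : Real.exp (-s) = l * ε := by rw [hs, neg_neg, Real.exp_log hd0]
  have hs1 : 1 ≤ s := by
    have : Real.log (l * ε) ≤ -1 := by
      rw [Real.log_le_iff_le_exp hd0]
      exact hd2
    linarith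
  have hs2 : s ≤ n' - 1 - T0 := by
    have : 1 + T0 - n' ≤ Real.log (l * ε) := by
      rw [Real.le_log_iff_exp_le hd0]
      exact hd1
    linarith
  obtain ⟨t, v0, ht0, htT, hv1, hv2, hv⟩ := hDES (g * nM (a * ε) * aM (-s))
  refine ⟨v0, hv1, hv2, fun j hj habs => ?_⟩
  have h1 := hv _ habs
  set v : ℝ := ((j : ℝ) - a) / l with hvd
  have h2 : g * nM (a * ε) * aM (-s) * nM v * aM (-t) = g * nM (j * ε) * aM (-(s + t)) := by
    have e1 : aM (-s) * nM v = nM (Real.exp (-s) * v) * aM (-s) := by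
      have h := hna (Real.exp (-s) * v) (-s)
      have e : Real.exp (-(-s)) * (Real.exp (-s) * v) = v := by
        rw [← mul_assoc, ← Real.exp_add, neg_add_cancel, Real.exp_zero, one_mul]
      rw [e] at h
      exact h.symm
    have e2 : (j : ℝ) * ε = a * ε + Real.exp (-s) * v := by
      rw [hes, hvd]
      field_simp
      ring
    have e3 : -(s + t) = -s + -t := by ring
    rw [e2, e3, hnn, haa]
    calc g * nM (a * ε) * aM (-s) * nM v * aM (-t)
        = g * nM (a * ε) * (aM (-s) * nM v) * aM (-t) := by simp only [mul_assoc]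
      _ = g * nM (a * ε) * (nM (Real.exp (-s) * v) * aM (-s)) * aM (-t) := by rw [e1]
      _ = _ := by simp only [mul_assoc]
  rw [h2] at h1
  have h3 := hA j hj (s + t) (by linarith) (by linarith)
  linarith

/-- **JPO** -/
theorem JPO_proof (hGLC : RS.GLC_stmt) : JPO_stmt := by
  intro Γ θ η T0 c n' ε l L g J hθ hη hη1 hUC hT0 hc hc4 hDES hn' hε hl hel hL hLε hJ
  have hGLC' := hGLC
  obtain ⟨-, -, -, -, -, -, -, -, -, -, haa, hnn, hll, -, -, -, -, -, -, -⟩ := hGLC'
  have ha0 : aM 0 = 1 := by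
    have h := haa 0 0
    rw [add_zero] at h
    exact (mul_eq_left.mp h.symm)
  have hn0 : nM 0 = 1 := by
    have h := hnn 0 0
    rw [add_zero] at h
    exact (mul_eq_left.mp h.symm)
  have hl0 : lM 0 = 1 := by
    have h := hll 0 0
    rw [add_zero] at h
    exact (mul_eq_left.mp h.symm)
  -- (A)
  have hA : ∀ j ∈ J, ∀ t : ℝ, 1 ≤ t → t ≤ n' - 1 → θ (g * nM (j * ε) * aM (-t)) ≤ 5 / 8 := by
    intro j hj t ht1 ht2
    obtain ⟨hjε, u, hu, hD⟩ := hJ j hj
    have h1 : θ (g * lM (l * u) * nM (j * ε) * aM (-t)) ≤ 9 / 16 := hD t ⟨ht1, ht2⟩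
    set x : ℝ := (j : ℝ) * ε with hx
    set m : ℝ := l * u with hm
    have hx1 : |x| ≤ 1 / 2 := by
      rw [hx, abs_mul, abs_of_pos hε]
      exact hjε
    have hm0 : 0 ≤ m := mul_nonneg hl hu.1
    have hm1 : m ≤ l := by
      calc l * u ≤ l * 1 := mul_le_mul_of_nonneg_left hu.2 hl
        _ = l := mul_one l
    have hen : 1 ≤ Real.exp n' := Real.one_le_exp (by linarith)
    have hmη : Real.exp n' * m ≤ η := (mul_le_mul_of_nonneg_left hm1 (Real.exp_pos _).le).trans hel
    have hmη' : m ≤ η := (le_mul_of_one_le_left hm0 hen).trans hmη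
    set q : SL(2, ℝ) := aM t * (nM (-x) * lM (-m) * nM x) * aM (-t) with hq
    have h2 : g * lM m * nM x * aM (-t) * q = g * nM x * aM (-t) := by
      have e1 : aM (-t) * aM t = 1 := by rw [← haa, neg_add_cancel, ha0]
      have e2 : nM x * nM (-x) = 1 := by rw [← hnn, add_neg_cancel, hn0]
      have e3 : lM m * lM (-m) = 1 := by rw [← hll, add_neg_cancel, hl0]
      calc g * lM m * nM x * aM (-t) * q
          = g * lM m * nM x * (aM (-t) * aM t) * nM (-x) * lM (-m) * nM x * aM (-t) := by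
            rw [hq]
            simp only [mul_assoc]
        _ = g * lM m * (nM x * nM (-x)) * lM (-m) * nM x * aM (-t) := by
            rw [e1, mul_one]
            simp only [mul_assoc]
        _ = g * (lM m * lM (-m)) * nM x * aM (-t) := by
            rw [e2, mul_one]
            simp only [mul_assoc]
        _ = g * nM x * aM (-t) := by rw [e3, mul_one]
    have h3 : q.1 = !![1 + x * m, Real.exp t * (x ^ 2 * m); Real.exp (-t) * -m, 1 - x * m] :=
      JPO_conj t _ _ _ _ _ (JPO_mid x m)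
    have hxm : |x * m| ≤ η := by
      rw [abs_mul, abs_of_nonneg hm0]
      calc |x| * m ≤ 1 / 2 * m := mul_le_mul_of_nonneg_right hx1 hm0
        _ ≤ η := by linarith
    have h4 : near1 η q := by
      unfold near1
      rw [h3]
      refine ⟨?_, ?_, ?_, ?_⟩
      · show |1 + x * m - 1| ≤ η
        rw [add_sub_cancel_left]
        exact hxm
      · show |1 - x * m - 1| ≤ η
        rw [sub_sub_cancel_left, abs_neg]
        exact hxm
      · show |Real.exp t * (x ^ 2 * m)| ≤ η
        rw [abs_of_nonneg (by positivity)]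
        have hx2 : x ^ 2 ≤ 1 := by
          rw [← sq_abs]
          calc |x| ^ 2 ≤ (1 / 2) ^ 2 := pow_le_pow_left₀ (abs_nonneg _) hx1 2
            _ ≤ 1 := by norm_num
        have het : Real.exp t ≤ Real.exp n' := Real.exp_le_exp.mpr (by linarith)
        calc Real.exp t * (x ^ 2 * m) ≤ Real.exp n' * (1 * m) :=
              mul_le_mul het (mul_le_mul_of_nonneg_right hx2 hm0) (by positivity) (Real.exp_pos _).le
          _ = Real.exp n' * m := by rw [one_mul]
          _ ≤ η := hmη
      · show |Real.exp (-t) * -m| ≤ η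
        rw [mul_neg, abs_neg, abs_of_nonneg (by positivity)]
        have het : Real.exp (-t) ≤ 1 := Real.exp_le_one_iff.mpr (by linarith)
        calc Real.exp (-t) * m ≤ 1 * m := mul_le_mul_of_nonneg_right het hm0
          _ = m := one_mul m
          _ ≤ η := hmη'
    have h5 := hUC (g * lM m * nM x * aM (-t)) q h4
    rw [h2] at h5
    have h6 := (abs_le.mp h5).2
    linarith
  -- holes
  intro a b hab
  have hlen : 0 < b - a := lt_of_lt_of_le hL hab
  have hd0 : 0 < (b - a) * ε := mul_pos hlen hε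
  have hd1 : Real.exp (1 + T0 - n') ≤ (b - a) * ε := hLε.trans (mul_le_mul_of_nonneg_right hab hε.le)
  have he1 : 1 / 3 ≤ Real.exp (-1) := by
    rw [Real.exp_neg, one_div]
    refine inv_anti₀ (Real.exp_pos _) ?_
    have := Real.exp_one_lt_d9
    linarith
  rcases le_or_gt ((b - a) * ε) (Real.exp (-1)) with hd2 | hd2
  · -- case 1
    obtain ⟨v0, hv1, hv2, hv⟩ := JPO_hole hGLC θ T0 c n' ε g J hDES hA a (b - a) hlen hd1 hd2
    refine ⟨a + (b - a) * (v0 - c), ?_, ?_, ?_⟩
    · have := mul_nonneg hlen.le (by linarith : 0 ≤ v0 - c)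
      linarith
    · nlinarith
    · rintro x ⟨j, hj, rfl⟩ ⟨hx1, hx2⟩
      refine hv j hj ?_
      rw [abs_le]
      constructor
      · rw [le_sub_iff_add_le, le_div_iff₀ hlen]
        linarith
      · rw [sub_le_iff_le_add, div_le_iff₀ hlen]
        nlinarith
  · rcases le_or_gt ((b - a) * ε) 4 with hd4 | hd4
    · -- case 2
      set l' : ℝ := Real.exp (-1) / ε with hl'
      have hl'0 : 0 < l' := by positivity
      have hl'ε : l' * ε = Real.exp (-1) := by
        rw [hl']
        field_simp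
      have hl'b : l' ≤ b - a := by
        rw [hl', div_le_iff₀ hε]
        exact hd2.le
      have hlow : (b - a) / 12 ≤ l' := by
        rw [hl', le_div_iff₀ hε]
        linarith
      obtain ⟨v0, hv1, hv2, hv⟩ := JPO_hole hGLC θ T0 c n' ε g J hDES hA a l' hl'0
        (by rw [hl'ε]; exact Real.exp_le_exp.mpr (by linarith)) (by rw [hl'ε])
      have hhole : c / 6 * (b - a) ≤ 2 * c * l' := by nlinarith
      refine ⟨a + l' * (v0 - c), ?_, ?_, ?_⟩
      · have := mul_nonneg hl'0.le (by linarith : 0 ≤ v0 - c)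
        linarith
      · nlinarith
      · rintro x ⟨j, hj, rfl⟩ ⟨hx1, hx2⟩
        refine hv j hj ?_
        rw [abs_le]
        constructor
        · rw [le_sub_iff_add_le, le_div_iff₀ hl'0]
          linarith
        · rw [sub_le_iff_le_add, div_le_iff₀ hl'0]
          nlinarith
    · -- case 3
      have hcl : c / 6 * (b - a) ≤ (b - a) / 24 := by nlinarith
      have hinv : 4 / ε < b - a := by
        rw [div_lt_iff₀ hε]
        exact hd4
      have hie : 0 < 1 / ε := by positivity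
      have h4e : 4 / ε = 4 * (1 / ε) := by ring
      have hjb : ∀ j ∈ J, |(j : ℝ)| ≤ 1 / ε := by
        intro j hj
        rw [le_div_iff₀ hε]
        exact (hJ j hj).1.trans (by norm_num)
      rcases le_total 0 (a + b) with hs | hs
      · refine ⟨b - c / 6 * (b - a), ?_, ?_, ?_⟩
        · linarith
        · linarith
        · rintro x ⟨j, hj, rfl⟩ ⟨hx1, hx2⟩
          have h1 := (abs_le.mp (hjb j hj)).2
          rw [h4e] at hinv
          linarith
      · refine ⟨a, le_refl _, ?_, ?_⟩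
        · linarith
        · rintro x ⟨j, hj, rfl⟩ ⟨hx1, hx2⟩
          have h1 := (abs_le.mp (hjb j hj)).1
          rw [h4e] at hinv
          linarith

end Pool.Agent.FD
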